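import Mathlib

set_option autoImplicit false

namespace Pool.Agent.Results.MP_7ca01f_co.Book

open Finset Matrix Filter

/-- Laplacian `D - A` of a weighted adjacency matrix `A`. -/
def lap {V : Type} [Fintype V] [DecidableEq V] (A : Matrix V V ℝ) : Matrix V V ℝ :=
  Matrix.diagonal (fun u => ∑ v, A u v) - A

/-- `l` is the largest eigenvalue of `A`. -/
def IsTop {V : Type} [Fintype V] (A : Matrix V V ℝ) (l : ℝ) : Prop :=
  IsGreatest {μ : ℝ | ∃ x : V → ℝ, x ≠ 0 ∧ A.mulVec x = μ • x} l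

def M (n : ℕ) (t : ℝ) : Matrix (Bool ⊕ Fin n) (Bool ⊕ Fin n) ℝ
  | .inl i, .inl j => if i = j then 0 else t
  | .inl _, .inr _ => 1
  | .inr _, .inl _ => 1
  | .inr _, .inr _ => 0

def adj (n : ℕ) : Bool ⊕ Fin n → Bool ⊕ Fin n → Bool
  | .inl i, .inl j => i != j
  | .inl _, .inr _ => true
  | .inr _, .inl _ => true
  | .inr _, .inr _ => false

def G (n : ℕ) : SimpleGraph (Bool ⊕ Fin n) where
  Adj u v := adj n u v = true
  symm := ⟨by rintro (i | i) (j | j) <;> simp [adj]; exact Ne.symm⟩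
  loopless := ⟨by rintro (i | i) <;> simp [adj]⟩

instance (n : ℕ) : DecidableRel (G n).Adj := fun u v => inferInstanceAs (Decidable (adj n u v = true))

theorem adjM (n : ℕ) : (G n).adjMatrix ℝ = M n 1 := by
  ext (i | i) (j | j) <;> simp [G, adj, M]

theorem quad (n : ℕ) (t : ℝ) (x : Bool ⊕ Fin n → ℝ) : x ⬝ᵥ (lap (M n t)).mulVec x =
    t * (x (.inl true) - x (.inl false)) ^ 2 +
      ∑ v, ((x (.inl true) - x (.inr v)) ^ 2 + (x (.inl false) - x (.inr v)) ^ 2) := by
  rw [lap, sub_mulVec, dotProduct_sub]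
  simp only [dotProduct, mulVec_diagonal]
  simp only [mulVec, dotProduct, Fintype.sum_sum_type, Fintype.sum_bool, M, sub_sq, sum_add_distrib,
    sum_sub_distrib, ← mul_sum, mul_add, add_mul, ← sum_mul]
  simp [sq]
  ring

theorem top (n : ℕ) (hn : 0 < n) (t μ : ℝ) (ht : 0 ≤ t) (h0 : 0 < μ) (h : μ ^ 2 = t * μ + 2 * n) :
    IsTop (M n t) μ := by
  refine ⟨⟨Sum.elim (fun _ => μ) fun _ => 2, fun e => h0.ne' (congrFun e (.inl true)), ?_⟩, ?_⟩
  · ext (i | i)
    · cases i <;> simp [mulVec, dotProduct, M] <;> linarith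
    · simp [mulVec, dotProduct, M]; ring
  · rintro ν ⟨x, x0, e⟩
    by_contra! c
    have a := congrFun e (.inl true)
    have b := congrFun e (.inl false)
    have d := fun v => congrFun e (.inr v)
    simp [mulVec, dotProduct, M] at a b d
    have s : ν * ∑ v, x (.inr v) = n * (x (.inl true) + x (.inl false)) := by
      rw [mul_sum]; simp [← d]; ring
    have n0 : (0 : ℝ) < n := by exact_mod_cast hn
    have tm : t < μ := by nlinarith
    have p : 0 < ν ^ 2 - t * ν - 2 * n := by nlinarith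
    have T : x (.inl true) + x (.inl false) = 0 := by
      refine (mul_eq_zero.mp (?_ : (ν ^ 2 - t * ν - 2 * n) * _ = 0)).resolve_left p.ne'
      linear_combination -ν * a - ν * b + 2 * s
    have S : ∑ v, x (.inr v) = 0 :=
      (mul_eq_zero.mp (s.trans (by rw [T, mul_zero]))).resolve_left (by linarith)
    have A : x (.inl true) = 0 := by
      refine (mul_eq_zero.mp (?_ : (ν + t) * _ = 0)).resolve_left (by linarith)
      linear_combination -a + S + t * T
    apply x0
    ext (i | i)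
    · cases i
      · simpa [A] using T
      · exact A
    · exact (mul_eq_zero.mp ((d i).symm.trans T)).resolve_left (by linarith)

theorem result : ∃ (V : ℕ → Type) (_ : ∀ k, Fintype (V k)) (_ : ∀ k, DecidableEq (V k))
    (G : ∀ k, SimpleGraph (V k)) (_ : ∀ k, DecidableRel (G k).Adj)
    (A : ∀ k, Matrix (V k) (V k) ℝ) (ε lG lH : ℕ → ℝ),
    (∀ k, (G k).Connected ∧ 0 < ε k ∧ ε k < 1 ∧
      (∀ u v, A k u v = A k v u ∧ 0 ≤ A k u v ∧ (A k u v ≠ 0 → (G k).Adj u v)) ∧
      (∃ u v, (G k).Adj u v ∧ A k u v = 0) ∧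
      (∀ x : V k → ℝ,
        (1 - ε k) * (x ⬝ᵥ (lap ((G k).adjMatrix ℝ)).mulVec x) ≤ x ⬝ᵥ (lap (A k)).mulVec x ∧
        x ⬝ᵥ (lap (A k)).mulVec x ≤ (1 + ε k) * (x ⬝ᵥ (lap ((G k).adjMatrix ℝ)).mulVec x)) ∧
      IsTop ((G k).adjMatrix ℝ) (lG k) ∧ IsTop (A k) (lH k)) ∧
    Tendsto (fun k => |lH k - lG k| / (ε k * lG k)) atTop atTop := by
  let N : ℕ → ℕ := fun k => (k + 1) * (2 * k + 3)
  have hN : ∀ k, (N k : ℝ) = (k + 1) * (2 * k + 3) := fun k => by simp [N]
  refine ⟨fun k => Bool ⊕ Fin (N k), inferInstance, inferInstance, fun k => G (N k), inferInstance,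
    fun k => M (N k) 0, fun k => 2 / (N k + 2), fun k => 2 * k + 3, fun k => √(2 * N k),
    fun k => ?_, ?_⟩
  · have n0 : 0 < N k := by positivity
    have n1 : (0 : ℝ) < N k := by exact_mod_cast n0
    refine ⟨?_, by positivity, by rw [div_lt_one (by positivity)]; linarith, ?_,
      ⟨.inl true, .inl false, rfl, rfl⟩, fun x => ?_, ?_, ?_⟩
    · refine (SimpleGraph.connected_iff_exists_forall_reachable _).mpr ⟨.inl true, ?_⟩
      rintro ((_ | _) | i)
      exacts [SimpleGraph.Adj.reachable rfl, SimpleGraph.Reachable.refl _, SimpleGraph.Adj.reachable rfl]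
    · rintro (i | i) (j | j) <;> simp [M, G, adj]
    · rw [adjM, quad, quad]
      set d := (x (.inl true) - x (.inl false)) ^ 2 with hd
      set Q := ∑ v, ((x (.inl true) - x (.inr v)) ^ 2 + (x (.inl false) - x (.inr v)) ^ 2) with hQ
      have d0 : 0 ≤ d := sq_nonneg _
      have q : N k * (d / 2) ≤ Q := by
        have := card_nsmul_le_sum univ (fun v : Fin (N k) =>
          (x (.inl true) - x (.inr v)) ^ 2 + (x (.inl false) - x (.inr v)) ^ 2) (d / 2) fun v _ => by
            nlinarith [sq_nonneg (x (.inl true) + x (.inl false) - 2 * x (.inr v))]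
        simpa using this
      have q0 : 0 ≤ Q := le_trans (by positivity) q
      have e0 : (0 : ℝ) < 2 / (N k + 2) := by positivity
      refine ⟨?_, by nlinarith⟩
      rw [show 1 - 2 / (N k + 2 : ℝ) = N k / (N k + 2) by field_simp; ring, div_mul_eq_mul_div,
        div_le_iff₀ (by positivity)]
      nlinarith
    · rw [adjM]
      exact top _ n0 _ _ zero_le_one (by positivity) (by rw [hN]; ring)
    · exact top _ n0 _ _ le_rfl (by positivity) (by rw [Real.sq_sqrt (by positivity)]; ring)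
  · refine tendsto_atTop_mono (fun k => ?_) (tendsto_natCast_atTop_atTop.atTop_div_const four_pos)
    have k0 : (0 : ℝ) ≤ k := k.cast_nonneg
    have a : √(2 * N k) ≤ 2 * k + 5 / 2 := Real.sqrt_le_iff.mpr ⟨by positivity, by rw [hN]; nlinarith⟩
    have b := neg_le_abs (√(2 * N k) - (2 * k + 3))
    rw [le_div_iff₀ (by positivity)]
    refine le_trans ?_ (show (1 / 2 : ℝ) ≤ _ by linarith)
    beta_reduce
    rw [hN, div_mul_eq_mul_div 2, ← mul_div_assoc, div_le_iff₀ (by positivity)]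
    nlinarith

end Pool.Agent.Results.MP_7ca01f_co.Book
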